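import Mathlib

/-!
# Two exactly triply regular symmetric association schemes with the same intersection numbers
and different Delta-Wye parameters
-/

set_option autoImplicit false

open Finset

namespace Pool.Agent.Results.MP_711634_co.DeltaWye

/-- A symmetric association scheme with `d` classes on the finite set `X`: `(x, y)` lies in the relation `R i` iff
`rel x y = i`, and `p i j k` is the intersection number `p_{ij}^k`. -/
structure Scheme (X : Type) [Fintype X] (d : ℕ) where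
  rel : X → X → Fin (d + 1)
  rel_zero : ∀ x y, rel x y = 0 ↔ x = y
  rel_symm : ∀ x y, rel x y = rel y x
  rel_surj : ∀ i, ∃ x y, rel x y = i
  p : Fin (d + 1) → Fin (d + 1) → Fin (d + 1) → ℕ
  card_eq : ∀ i j x y, Nat.card {z : X // rel x z = i ∧ rel z y = j} = p i j (rel x y)

section Tensors

variable {X : Type} [Fintype X]

/-- The tensor `Δ(L, M, N)`: its coefficient at `x ⊗ y ⊗ z` is `L_{xz} M_{xy} N_{yz}`. -/
def Delta (L M N : Matrix X X ℂ) : X → X → X → ℂ := fun x y z => L x z * M x y * N y z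

/-- The tensor `Y(L, M, N)`: its coefficient at `x ⊗ y ⊗ z` is `∑ u, L_{xu} M_{yu} N_{zu}`. -/
def Wye (L M N : Matrix X X ℂ) : X → X → X → ℂ := fun x y z => ∑ u, L x u * M y u * N z u

end Tensors

/-- `q r s t` is the Krein parameter `q_{rs}^t`: `E_r ∘ E_s = |X|⁻¹ ∑ t, q_{rs}^t E_t`. -/
def IsKrein {X : Type} [Fintype X] {d : ℕ} (E : Fin (d + 1) → Matrix X X ℂ)
    (q : Fin (d + 1) → Fin (d + 1) → Fin (d + 1) → ℝ) : Prop :=
  ∀ r s, Matrix.hadamard (E r) (E s) = ((Fintype.card X : ℝ)⁻¹) • ∑ t, q r s t • E t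

namespace Scheme

variable {X : Type} [Fintype X] {d : ℕ} (S : Scheme X d)

/-- the adjacency matrix `A_i` -/
noncomputable def adj (i : Fin (d + 1)) : Matrix X X ℂ :=
  Matrix.of fun x y => if S.rel x y = i then 1 else 0

/-- the Bose-Mesner algebra, the real span of the adjacency matrices -/
noncomputable def bm : Submodule ℝ (Matrix X X ℂ) := Submodule.span ℝ (Set.range S.adj)

/-- the span of the tensors `Δ(L, M, N)`, `L, M, N` in the Bose-Mesner algebra -/
noncomputable def deltaSpan : Submodule ℂ (X → X → X → ℂ) :=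
  Submodule.span ℂ {F | ∃ L ∈ S.bm, ∃ M ∈ S.bm, ∃ N ∈ S.bm, F = Delta L M N}

/-- the span of the tensors `Y(L, M, N)`, `L, M, N` in the Bose-Mesner algebra -/
noncomputable def wyeSpan : Submodule ℂ (X → X → X → ℂ) :=
  Submodule.span ℂ {F | ∃ L ∈ S.bm, ∃ M ∈ S.bm, ∃ N ∈ S.bm, F = Wye L M N}

/-- triply regular and dually triply regular -/
def ExactlyTriplyRegular : Prop := S.wyeSpan ≤ S.deltaSpan ∧ S.deltaSpan ≤ S.wyeSpan

/-- primitive idempotents of the Bose-Mesner algebra -/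
structure IsPrimitiveIdempotent (e : Matrix X X ℂ) : Prop where
  mem : e ∈ S.bm
  ne_zero : e ≠ 0
  idem : e * e = e
  prim : ∀ f ∈ S.bm, f * f = f → e * f = f → f = 0 ∨ f = e

/-- `E` is an ordering of the primitive idempotents. -/
def IsOrdering (E : Fin (d + 1) → Matrix X X ℂ) : Prop :=
  Function.Injective E ∧ ∀ e, S.IsPrimitiveIdempotent e ↔ ∃ r, E r = e

open Classical in
/-- The `σ i j k r s t` (for `p_{ij}^k > 0` and `q_{rs}^t > 0`) are the Delta-Wye parameters. -/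
def IsDeltaWye (E : Fin (d + 1) → Matrix X X ℂ) (q : Fin (d + 1) → Fin (d + 1) → Fin (d + 1) → ℝ)
    (σ : Fin (d + 1) → Fin (d + 1) → Fin (d + 1) → Fin (d + 1) → Fin (d + 1) → Fin (d + 1) → ℂ) : Prop :=
  ∀ i j k, 0 < S.p i j k → Delta (S.adj i) (S.adj j) (S.adj k) =
    ∑ r, ∑ s, ∑ t, if 0 < q r s t then σ i j k r s t • Wye (E r) (E s) (E t) else 0

end Scheme

/-! ## General facts -/

section General

variable {X : Type} [Fintype X]

theorem wye_inner (L M N L' M' N' : Matrix X X ℂ) :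
    ∑ x, ∑ y, ∑ z, Wye L M N x y z * Wye L' M' N' x y z =
      ∑ u, ∑ v, (∑ x, L x u * L' x v) * (∑ y, M y u * M' y v) * (∑ z, N z u * N' z v) := by
  simp only [Wye]
  have h1 : ∀ x y z, (∑ u, L x u * M y u * N z u) * (∑ v, L' x v * M' y v * N' z v) =
      ∑ u, ∑ v, (L x u * L' x v) * (M y u * M' y v) * (N z u * N' z v) := by
    intro x y z
    rw [Finset.sum_mul_sum]
    refine Finset.sum_congr rfl fun u _ => Finset.sum_congr rfl fun v _ => by ring
  simp only [h1]
  have h2 : ∀ u v, (∑ x, L x u * L' x v) * (∑ y, M y u * M' y v) * (∑ z, N z u * N' z v) =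
      ∑ x, ∑ y, ∑ z, (L x u * L' x v) * (M y u * M' y v) * (N z u * N' z v) := by
    intro u v
    rw [Finset.sum_mul_sum, Finset.sum_mul]
    refine Finset.sum_congr rfl fun x _ => ?_
    rw [Finset.sum_mul]
    refine Finset.sum_congr rfl fun y _ => ?_
    rw [Finset.mul_sum]
  simp only [h2]
  have step : ∀ f : X → X → X → X → X → ℂ, ∑ x, ∑ y, ∑ z, ∑ u, ∑ v, f x y z u v =
      ∑ u, ∑ v, ∑ x, ∑ y, ∑ z, f x y z u v := by
    intro f
    calc ∑ x, ∑ y, ∑ z, ∑ u, ∑ v, f x y z u v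
        = ∑ x, ∑ y, ∑ u, ∑ z, ∑ v, f x y z u v := by
          refine Finset.sum_congr rfl fun x _ => Finset.sum_congr rfl fun y _ => Finset.sum_comm
      _ = ∑ x, ∑ u, ∑ y, ∑ z, ∑ v, f x y z u v := by
          refine Finset.sum_congr rfl fun x _ => Finset.sum_comm
      _ = ∑ u, ∑ x, ∑ y, ∑ z, ∑ v, f x y z u v := Finset.sum_comm
      _ = ∑ u, ∑ x, ∑ y, ∑ v, ∑ z, f x y z u v := by
          refine Finset.sum_congr rfl fun u _ => Finset.sum_congr rfl fun x _ =>
            Finset.sum_congr rfl fun y _ => Finset.sum_comm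
      _ = ∑ u, ∑ x, ∑ v, ∑ y, ∑ z, f x y z u v := by
          refine Finset.sum_congr rfl fun u _ => Finset.sum_congr rfl fun x _ => Finset.sum_comm
      _ = ∑ u, ∑ v, ∑ x, ∑ y, ∑ z, f x y z u v := by
          refine Finset.sum_congr rfl fun u _ => Finset.sum_comm
  exact step _

end General


/-! ## Tables -/

/-- the intersection numbers -/
def p0 (i j k : Fin (9 + 1)) : ℕ :=
  (0x82000280050000500050000500040000100001000040000000280008200500005000500005000100004000040000100000050000500000220008850000500000100004000010000400000500005000008800022500005000004000010000400001000050000500050000500000000a000a00010000100004000040005000050005000050000000a00000a0040000400001000010040000100000100004000001000040000001000040001000040100004000004000010000010000400000040000100040000101000040000010000400000400001000001000040000010000440000100000400001000004000010000040000100000400001 >>>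
    (2 * (100 * i.1 + 10 * j.1 + k.1))) &&& 3

/-- `16 E_r = ∑ i, Q r i • A_i` -/
def Q (r i : Fin (9 + 1)) : ℤ :=
  (((0x8124a01044928044a04841121121044928009124840246c925b6c96c96db2496db6db6db6db >>> (3 * (10 * r.1 + i.1))) &&& 7 : ℕ) : ℤ) - 2

theorem Q_sq : ∀ i k, ∑ r, Q i r * Q r k = if i = k then 16 else 0 := by decide +kernel

theorem Q_krein : ∀ r s k, Q r k * Q s k = ∑ t, (p0 r s t : ℤ) * Q t k := by decide +kernel

theorem Q_zero : ∀ r, Q r 0 ≠ 0 := by decide +kernel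

/-- Data of a scheme on an abelian group. -/
structure TData (G : Type) [AddCommGroup G] [Fintype G] where
  c : G → Fin (9 + 1)
  τ : G → G
  τ_sub : ∀ x y, τ (x - y) = τ x - τ y
  τ_τ : ∀ x, τ (τ x) = x
  c_τ : ∀ x, c (τ x) = c x
  c_zero : ∀ x, c x = 0 ↔ x = 0
  c_neg : ∀ x, c (-x) = c x
  c_surj : ∀ i, ∃ x, c x = i
  count : ∀ i j x, (univ.filter fun z => c z = i ∧ c (x - z) = j).card = p0 i j (c x)
  orbit : ∀ x y, c x = c y → y = x ∨ y = τ x
  hom : ∀ x y, c (τ x - y) = c (x - y) → τ x = x ∨ τ y = y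
  orth : ∀ r s x, ∑ z, Q r (c z) * Q s (c (x - z)) = if r = s then 16 * Q r (c x) else 0
  card : Fintype.card G = 16
  kappa : ∀ r s t, 0 < p0 r s t → ∑ x, Q r (c x) * Q s (c x) * Q t (c x) ≠ 0



/-! ## The scheme of a `TData` -/

namespace TData

variable {G : Type} [AddCommGroup G] [Fintype G] (D : TData G)

/-- the scheme -/
noncomputable def sch : Scheme G 9 where
  rel x y := D.c (x - y)
  rel_zero x y := by rw [D.c_zero, sub_eq_zero]
  rel_symm x y := by rw [← D.c_neg, neg_sub]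
  rel_surj i := by
    obtain ⟨x, hx⟩ := D.c_surj i
    exact ⟨x, 0, by rwa [sub_zero]⟩
  p := p0
  card_eq i j x y := by
    rw [← D.count i j (x - y), Nat.card_eq_fintype_card, Fintype.card_subtype]
    refine Finset.card_bij (fun z _ => x - z) ?_ ?_ ?_
    · intro z hz
      rw [Finset.mem_filter] at hz ⊢
      refine ⟨Finset.mem_univ _, hz.2.1, ?_⟩
      rw [← hz.2.2]
      congr 1
      abel
    · intro z _ z' _ h
      simpa using h
    · intro w hw
      rw [Finset.mem_filter] at hw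
      refine ⟨x - w, ?_, by abel⟩
      rw [Finset.mem_filter]
      refine ⟨Finset.mem_univ _, ?_, ?_⟩
      · rw [← hw.2.1]; congr 1; abel
      · rw [← hw.2.2]; congr 1; abel

/-- the primitive idempotents -/
noncomputable def E (r : Fin (9 + 1)) : Matrix G G ℂ :=
  Matrix.of fun x y => ((Q r (D.c (x - y)) : ℤ) : ℂ) / 16

theorem sch_p : D.sch.p = p0 := rfl

theorem adj_apply (i : Fin (9 + 1)) (x y : G) : D.sch.adj i x y = if D.c (x - y) = i then 1 else 0 := rfl

theorem E_apply (r : Fin (9 + 1)) (x y : G) : D.E r x y = ((Q r (D.c (x - y)) : ℤ) : ℂ) / 16 := rfl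

theorem E_symm (r : Fin (9 + 1)) (x y : G) : D.E r x y = D.E r y x := by
  rw [E_apply, E_apply, ← D.c_neg, neg_sub]

theorem E_eq (r : Fin (9 + 1)) : D.E r = ∑ i, (((Q r i : ℤ) : ℝ) / 16) • D.sch.adj i := by
  ext x y
  rw [Matrix.sum_apply]
  simp only [Matrix.smul_apply, adj_apply, E_apply]
  rw [Finset.sum_eq_single (D.c (x - y))]
  · rw [if_pos rfl]
    simp
  · intro i _ hi
    rw [if_neg (Ne.symm hi), smul_zero]
  · intro h
    exact absurd (Finset.mem_univ _) h

theorem adj_eq (i : Fin (9 + 1)) : D.sch.adj i = ∑ r, ((Q i r : ℤ) : ℝ) • D.E r := by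
  ext x y
  rw [Matrix.sum_apply]
  simp only [Matrix.smul_apply, adj_apply, E_apply]
  have h := Q_sq i (D.c (x - y))
  have h2 : ((∑ r, Q i r * Q r (D.c (x - y)) : ℤ) : ℂ) = ((if i = D.c (x - y) then 16 else 0 : ℤ) : ℂ) := by
    rw [h]
  rw [Int.cast_sum] at h2
  have h3 : ∑ r, ((Q i r : ℤ) : ℝ) • (((Q r (D.c (x - y)) : ℤ) : ℂ) / 16) =
      (∑ r, ((Q i r * Q r (D.c (x - y)) : ℤ) : ℂ)) / 16 := by
    rw [Finset.sum_div]
    refine Finset.sum_congr rfl fun r _ => ?_
    push_cast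
    rw [Complex.real_smul]
    push_cast
    ring
  rw [h3, h2]
  by_cases hc : D.c (x - y) = i
  · rw [if_pos hc, if_pos hc.symm]; norm_num
  · rw [if_neg hc, if_neg (Ne.symm hc)]; norm_num

theorem E_mem (r : Fin (9 + 1)) : D.E r ∈ D.sch.bm := by
  rw [E_eq]
  exact Submodule.sum_mem _ fun i _ => Submodule.smul_mem _ _ (Submodule.subset_span ⟨i, rfl⟩)

theorem E_mul (r s : Fin (9 + 1)) : D.E r * D.E s = if r = s then D.E r else 0 := by
  ext x y
  rw [Matrix.mul_apply]
  simp only [E_apply]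
  have h := D.orth r s (x - y)
  have h1 : ∑ z, ((Q r (D.c (x - z)) : ℤ) : ℂ) / 16 * (((Q s (D.c (z - y)) : ℤ) : ℂ) / 16) =
      ((∑ z, Q r (D.c z) * Q s (D.c (x - y - z)) : ℤ) : ℂ) / 256 := by
    rw [Int.cast_sum, Finset.sum_div]
    refine Fintype.sum_equiv (Equiv.subLeft x) _ _ fun z => ?_
    rw [Equiv.subLeft_apply]
    have e : x - y - (x - z) = z - y := by abel
    rw [e]
    push_cast
    ring
  rw [h1, h]
  by_cases hrs : r = s
  · rw [if_pos hrs, if_pos hrs, E_apply]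
    push_cast
    ring
  · rw [if_neg hrs, if_neg hrs]
    simp

theorem E_ne (r : Fin (9 + 1)) : D.E r ≠ 0 := by
  intro h
  have h1 : D.E r 0 0 = 0 := by rw [h]; rfl
  rw [E_apply, sub_zero, (D.c_zero 0).2 rfl] at h1
  have h2 : ((Q r 0 : ℤ) : ℂ) ≠ 0 := by
    exact_mod_cast Q_zero r
  rw [div_eq_zero_iff] at h1
  rcases h1 with h1 | h1
  · exact h2 h1
  · norm_num at h1

theorem bm_eq : D.sch.bm = Submodule.span ℝ (Set.range D.E) := by
  refine le_antisymm ?_ ?_
  · refine Submodule.span_le.2 ?_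
    rintro _ ⟨i, rfl⟩
    rw [SetLike.mem_coe, adj_eq]
    exact Submodule.sum_mem _ fun r _ => Submodule.smul_mem _ _ (Submodule.subset_span ⟨r, rfl⟩)
  · refine Submodule.span_le.2 ?_
    rintro _ ⟨r, rfl⟩
    exact D.E_mem r

theorem mem_bm {e : Matrix G G ℂ} (h : e ∈ D.sch.bm) : ∃ a : Fin (9 + 1) → ℝ, ∑ r, a r • D.E r = e := by
  rw [bm_eq] at h
  exact (Submodule.mem_span_range_iff_exists_fun ℝ).1 h

theorem sum_mul_E (a : Fin (9 + 1) → ℝ) (s : Fin (9 + 1)) : (∑ r, a r • D.E r) * D.E s = a s • D.E s := by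
  rw [Finset.sum_mul, Finset.sum_eq_single s]
  · rw [smul_mul_assoc, E_mul, if_pos rfl]
  · intro r _ hr
    rw [smul_mul_assoc, E_mul, if_neg hr, smul_zero]
  · intro h
    exact absurd (Finset.mem_univ _) h

theorem E_mul_sum (a : Fin (9 + 1) → ℝ) (s : Fin (9 + 1)) : D.E s * (∑ r, a r • D.E r) = a s • D.E s := by
  rw [Finset.mul_sum, Finset.sum_eq_single s]
  · rw [mul_smul_comm, E_mul, if_pos rfl]
  · intro r _ hr
    rw [mul_smul_comm, E_mul, if_neg (Ne.symm hr), smul_zero]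
  · intro h
    exact absurd (Finset.mem_univ _) h

theorem E_idem (r : Fin (9 + 1)) : D.E r * D.E r = D.E r := by rw [E_mul, if_pos rfl]

theorem smul_E_inj {r : Fin (9 + 1)} {a b : ℝ} (h : a • D.E r = b • D.E r) : a = b := by
  by_contra hab
  have h1 : (a - b) • D.E r = 0 := by rw [sub_smul, h, sub_self]
  rcases smul_eq_zero.1 h1 with h2 | h2
  · exact hab (sub_eq_zero.1 h2)
  · exact D.E_ne r h2

theorem ordering : D.sch.IsOrdering D.E := by
  refine ⟨?_, ?_⟩
  · intro r s h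
    by_contra hrs
    have h1 : D.E r * D.E s = 0 := by rw [E_mul, if_neg hrs]
    rw [← h, E_idem] at h1
    exact D.E_ne r h1
  · intro e
    constructor
    · intro he
      obtain ⟨a, rfl⟩ := D.mem_bm he.mem
      have h1 : ∃ r, a r ≠ 0 := by
        by_contra hall
        push Not at hall
        apply he.ne_zero
        refine Finset.sum_eq_zero fun r _ => ?_
        rw [hall r, zero_smul]
      obtain ⟨r, hr⟩ := h1
      have h2 : a r * a r = a r := by
        apply D.smul_E_inj (r := r)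
        have h3 : (∑ r, a r • D.E r) * (∑ r, a r • D.E r) * D.E r = (∑ r, a r • D.E r) * D.E r := by
          rw [he.idem]
        rw [mul_assoc, sum_mul_E, mul_smul_comm, sum_mul_E, smul_smul] at h3
        exact h3
      have h4 : a r = 1 := by
        have := mul_right_cancel₀ hr (h2.trans (one_mul (a r)).symm)
        exact this
      have h5 : (∑ r, a r • D.E r) * D.E r = D.E r := by
        rw [sum_mul_E, h4, one_smul]
      rcases he.prim (D.E r) (D.E_mem r) (D.E_idem r) h5 with h6 | h6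
      · exact absurd h6 (D.E_ne r)
      · exact ⟨r, h6⟩
    · rintro ⟨r, rfl⟩
      refine ⟨D.E_mem r, D.E_ne r, D.E_idem r, ?_⟩
      intro f hf hff hef
      obtain ⟨a, rfl⟩ := D.mem_bm hf
      rw [E_mul_sum] at hef
      rw [← hef, smul_mul_smul_comm, E_idem] at hff
      have h7 := D.smul_E_inj hff
      rcases eq_or_ne (a r) 0 with h8 | h8
      · left
        rw [← hef, h8, zero_smul]
      · right
        have h9 : a r = 1 := mul_right_cancel₀ h8 (h7.trans (one_mul (a r)).symm)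
        rw [← hef, h9, one_smul]

theorem krein : IsKrein D.E (fun r s t => (p0 r s t : ℝ)) := by
  intro r s
  ext x y
  rw [Matrix.hadamard_apply, Matrix.smul_apply, Matrix.sum_apply, D.card]
  simp only [Matrix.smul_apply, E_apply]
  have h := Q_krein r s (D.c (x - y))
  have h2 : ((Q r (D.c (x - y)) * Q s (D.c (x - y)) : ℤ) : ℂ) =
      ((∑ t, (p0 r s t : ℤ) * Q t (D.c (x - y)) : ℤ) : ℂ) := by rw [h]
  rw [Int.cast_sum] at h2
  have h3 : ∑ t, (p0 r s t : ℝ) • (((Q t (D.c (x - y)) : ℤ) : ℂ) / 16) =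
      (∑ t, (((p0 r s t : ℤ) * Q t (D.c (x - y)) : ℤ) : ℂ)) / 16 := by
    rw [Finset.sum_div]
    refine Finset.sum_congr rfl fun t _ => ?_
    rw [Complex.real_smul]
    push_cast
    ring
  rw [h3, ← h2, Complex.real_smul]
  push_cast
  ring


/-! ### Triple regularity -/

theorem bm_const {L : Matrix G G ℂ} (hL : L ∈ D.sch.bm) {x y x' y' : G} (h : D.c (x - y) = D.c (x' - y')) :
    L x y = L x' y' := by
  unfold Scheme.bm at hL
  induction hL using Submodule.span_induction with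
  | mem A hA =>
    obtain ⟨i, rfl⟩ := hA
    rw [adj_apply, adj_apply, h]
  | zero => rfl
  | add A B _ _ hA hB => rw [Matrix.add_apply, Matrix.add_apply, hA, hB]
  | smul a A _ hA => rw [Matrix.smul_apply, Matrix.smul_apply, hA]

/-- the pairs `(x - z, y - z)` and `(x' - z', y' - z')` of triples with the same classes are equal up to `τ` -/
theorem homog {a b a' b' : G} (h1 : D.c a = D.c a') (h2 : D.c b = D.c b') (h3 : D.c (a - b) = D.c (a' - b')) :
    (a' = a ∧ b' = b) ∨ (a' = D.τ a ∧ b' = D.τ b) := by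
  rcases D.orbit a a' h1 with ha | ha <;> rcases D.orbit b b' h2 with hb | hb
  · exact Or.inl ⟨ha, hb⟩
  · rw [ha, hb] at h3
    have h4 : D.c (D.τ a - b) = D.c (a - b) := by
      rw [h3, ← D.c_τ (a - D.τ b), D.τ_sub, D.τ_τ]
    rcases D.hom a b h4 with h5 | h5
    · right; exact ⟨by rw [ha, h5], hb⟩
    · left; exact ⟨ha, by rw [hb, h5]⟩
  · rw [ha, hb] at h3
    rcases D.hom a b h3.symm with h5 | h5
    · left; exact ⟨by rw [ha, h5], hb⟩
    · right; exact ⟨ha, by rw [hb, h5]⟩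
  · exact Or.inr ⟨ha, hb⟩

theorem wye_const {L M N : Matrix G G ℂ} (hL : L ∈ D.sch.bm) (hM : M ∈ D.sch.bm) (hN : N ∈ D.sch.bm)
    {x y z x' y' z' : G} (h1 : D.c (x - z) = D.c (x' - z')) (h2 : D.c (x - y) = D.c (x' - y'))
    (h3 : D.c (y - z) = D.c (y' - z')) : Wye L M N x y z = Wye L M N x' y' z' := by
  have e : x - z - (y - z) = x - y := by abel
  have e' : x' - z' - (y' - z') = x' - y' := by abel
  unfold Wye
  rcases D.homog h1 h3 (by rw [e, e', h2]) with ⟨ha, hb⟩ | ⟨ha, hb⟩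
  · refine Fintype.sum_equiv (Equiv.addRight (z' - z)) _ _ fun u => ?_
    rw [Equiv.coe_addRight]
    have e1 : x' - (u + (z' - z)) = x - u := by
      have : x' - (u + (z' - z)) = (x' - z') - (u - z) := by abel
      rw [this, ha]; abel
    have e2 : y' - (u + (z' - z)) = y - u := by
      have : y' - (u + (z' - z)) = (y' - z') - (u - z) := by abel
      rw [this, hb]; abel
    have e3 : z' - (u + (z' - z)) = z - u := by abel
    rw [D.bm_const hL (x := x) (y := u) (x' := x') (y' := u + (z' - z)) (by rw [e1]),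
      D.bm_const hM (x := y) (y := u) (x' := y') (y' := u + (z' - z)) (by rw [e2]),
      D.bm_const hN (x := z) (y := u) (x' := z') (y' := u + (z' - z)) (by rw [e3])]
  · let f : G ≃ G :=
      { toFun := fun u => z' + D.τ (u - z)
        invFun := fun w => z + D.τ (w - z')
        left_inv := fun u => by
          change z + D.τ (z' + D.τ (u - z) - z') = u
          rw [add_sub_cancel_left, D.τ_τ]; abel
        right_inv := fun w => by
          change z' + D.τ (z + D.τ (w - z') - z) = w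
          rw [add_sub_cancel_left, D.τ_τ]; abel }
    refine Fintype.sum_equiv f _ _ fun u => ?_
    have e1 : x' - f u = D.τ (x - u) := by
      change x' - (z' + D.τ (u - z)) = D.τ (x - u)
      have : x' - (z' + D.τ (u - z)) = (x' - z') - D.τ (u - z) := by abel
      rw [this, ha, ← D.τ_sub]
      congr 1; abel
    have e2 : y' - f u = D.τ (y - u) := by
      change y' - (z' + D.τ (u - z)) = D.τ (y - u)
      have : y' - (z' + D.τ (u - z)) = (y' - z') - D.τ (u - z) := by abel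
      rw [this, hb, ← D.τ_sub]
      congr 1; abel
    have e3 : D.c (z' - f u) = D.c (z - u) := by
      change D.c (z' - (z' + D.τ (u - z))) = D.c (z - u)
      have : z' - (z' + D.τ (u - z)) = - D.τ (u - z) := by abel
      rw [this, D.c_neg, D.c_τ, ← D.c_neg, neg_sub]
    rw [D.bm_const hL (x := x) (y := u) (x' := x') (y' := f u) (by rw [e1, D.c_τ]),
      D.bm_const hM (x := y) (y := u) (x' := y') (y' := f u) (by rw [e2, D.c_τ]),
      D.bm_const hN (x := z) (y := u) (x' := z') (y' := f u) (by rw [e3])]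

/-- the triples `(i, j, k)` with `p_{ij}^k > 0` -/
abbrev Tri : Type := {t : Fin (9 + 1) × Fin (9 + 1) × Fin (9 + 1) // 0 < p0 t.1 t.2.1 t.2.2}

/-- the tensors `Δ(A_i, A_j, A_k)` -/
noncomputable def del (t : Tri) : G → G → G → ℂ :=
  Delta (D.sch.adj t.1.1) (D.sch.adj t.1.2.1) (D.sch.adj t.1.2.2)

/-- the tensors `Y(E_r, E_s, E_t)` -/
noncomputable def wye (t : Tri) : G → G → G → ℂ := Wye (D.E t.1.1) (D.E t.1.2.1) (D.E t.1.2.2)

theorem del_apply (t : Tri) (x y z : G) : D.del t x y z =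
    if D.c (x - z) = t.1.1 ∧ D.c (x - y) = t.1.2.1 ∧ D.c (y - z) = t.1.2.2 then 1 else 0 := by
  unfold del Delta
  rw [adj_apply, adj_apply, adj_apply]
  by_cases h1 : D.c (x - z) = t.1.1 <;> by_cases h2 : D.c (x - y) = t.1.2.1 <;>
    by_cases h3 : D.c (y - z) = t.1.2.2 <;> simp [h1, h2, h3]

theorem p0_pos (x y z : G) : 0 < p0 (D.c (x - z)) (D.c (x - y)) (D.c (y - z)) := by
  have h := D.sch.card_eq (D.c (x - z)) (D.c (x - y)) z y
  have h1 : D.sch.rel z y = D.c (y - z) := by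
    change D.c (z - y) = _
    rw [← D.c_neg, neg_sub]
  rw [h1] at h
  change _ = p0 _ _ _ at h
  rw [← h]
  have : Nonempty {w : G // D.sch.rel z w = D.c (x - z) ∧ D.sch.rel w y = D.c (x - y)} := by
    refine ⟨⟨x, ?_, rfl⟩⟩
    change D.c (z - x) = _
    rw [← D.c_neg, neg_sub]
  exact Nat.card_pos

open Classical in
theorem const_mem (F : G → G → G → ℂ)
    (hF : ∀ x y z x' y' z', D.c (x - z) = D.c (x' - z') → D.c (x - y) = D.c (x' - y') →
      D.c (y - z) = D.c (y' - z') → F x y z = F x' y' z') : F ∈ Submodule.span ℂ (Set.range D.del) := by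
  let f : Tri → ℂ := fun t =>
    if h : ∃ w : G × G × G, D.c (w.1 - w.2.2) = t.1.1 ∧ D.c (w.1 - w.2.1) = t.1.2.1 ∧ D.c (w.2.1 - w.2.2) = t.1.2.2
    then F h.choose.1 h.choose.2.1 h.choose.2.2 else 0
  have key : F = ∑ t, f t • D.del t := by
    funext x y z
    rw [Finset.sum_apply, Finset.sum_apply, Finset.sum_apply]
    simp only [Pi.smul_apply, del_apply, smul_eq_mul, mul_ite, mul_one, mul_zero]
    let t0 : Tri := ⟨(D.c (x - z), D.c (x - y), D.c (y - z)), D.p0_pos x y z⟩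
    rw [Finset.sum_eq_single t0]
    · rw [if_pos ⟨rfl, rfl, rfl⟩]
      have h : ∃ w : G × G × G, D.c (w.1 - w.2.2) = t0.1.1 ∧ D.c (w.1 - w.2.1) = t0.1.2.1 ∧
          D.c (w.2.1 - w.2.2) = t0.1.2.2 := ⟨(x, y, z), rfl, rfl, rfl⟩
      change F x y z = dite _ _ _
      rw [dif_pos h]
      obtain ⟨h1, h2, h3⟩ := h.choose_spec
      exact hF _ _ _ _ _ _ h1.symm h2.symm h3.symm
    · intro t _ ht
      rw [if_neg]
      rintro ⟨h1, h2, h3⟩
      exact ht (Subtype.ext (Prod.ext h1.symm (Prod.ext h2.symm h3.symm)))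
    · intro h
      exact absurd (Finset.mem_univ _) h
  rw [key]
  exact Submodule.sum_mem _ fun t _ => Submodule.smul_mem _ _ (Submodule.subset_span ⟨t, rfl⟩)

theorem wyeSpan_le : D.sch.wyeSpan ≤ Submodule.span ℂ (Set.range D.del) := by
  refine Submodule.span_le.2 ?_
  rintro F ⟨L, hL, M, hM, N, hN, rfl⟩
  exact D.const_mem _ fun x y z x' y' z' h1 h2 h3 => D.wye_const hL hM hN h1 h2 h3

theorem deltaSpan_le : D.sch.deltaSpan ≤ Submodule.span ℂ (Set.range D.del) := by
  refine Submodule.span_le.2 ?_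
  rintro F ⟨L, hL, M, hM, N, hN, rfl⟩
  refine D.const_mem _ fun x y z x' y' z' h1 h2 h3 => ?_
  unfold Delta
  rw [D.bm_const hL h1, D.bm_const hM h2, D.bm_const hN h3]

theorem adj_mem (i : Fin (9 + 1)) : D.sch.adj i ∈ D.sch.bm := Submodule.subset_span ⟨i, rfl⟩

theorem le_deltaSpan : Submodule.span ℂ (Set.range D.del) ≤ D.sch.deltaSpan := by
  refine Submodule.span_le.2 ?_
  rintro _ ⟨t, rfl⟩
  exact Submodule.subset_span ⟨_, D.adj_mem _, _, D.adj_mem _, _, D.adj_mem _, rfl⟩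

theorem wye_le : Submodule.span ℂ (Set.range D.wye) ≤ D.sch.wyeSpan := by
  refine Submodule.span_le.2 ?_
  rintro _ ⟨t, rfl⟩
  exact Submodule.subset_span ⟨_, D.E_mem _, _, D.E_mem _, _, D.E_mem _, rfl⟩

/-- the bilinear form `∑ F F'` -/
noncomputable def ip (F' : G → G → G → ℂ) : (G → G → G → ℂ) →ₗ[ℂ] ℂ where
  toFun F := ∑ x, ∑ y, ∑ z, F x y z * F' x y z
  map_add' F1 F2 := by
    simp only [Pi.add_apply, add_mul, Finset.sum_add_distrib]
  map_smul' a F := by
    simp only [Pi.smul_apply, smul_eq_mul, RingHom.id_apply, Finset.mul_sum, mul_assoc]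

omit [AddCommGroup G] in
theorem ip_apply (F F' : G → G → G → ℂ) : ip F' F = ∑ x, ∑ y, ∑ z, F x y z * F' x y z := rfl

theorem E_inner (r s : Fin (9 + 1)) (u v : G) : ∑ x, D.E r x u * D.E s x v = if r = s then D.E r u v else 0 := by
  have h : ∑ x, D.E r x u * D.E s x v = (D.E r * D.E s) u v := by
    rw [Matrix.mul_apply]
    refine Finset.sum_congr rfl fun x _ => ?_
    rw [D.E_symm r x u]
  rw [h, E_mul]
  by_cases hrs : r = s
  · rw [if_pos hrs, if_pos hrs]
  · rw [if_neg hrs, if_neg hrs]; rfl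

theorem ip_wye_ne {t t' : Tri} (h : t ≠ t') : ip (D.wye t') (D.wye t) = 0 := by
  rw [ip_apply]
  unfold wye
  rw [wye_inner]
  simp only [E_inner]
  refine Finset.sum_eq_zero fun u _ => Finset.sum_eq_zero fun v _ => ?_
  by_cases h1 : t.1.1 = t'.1.1
  · by_cases h2 : t.1.2.1 = t'.1.2.1
    · by_cases h3 : t.1.2.2 = t'.1.2.2
      · exact absurd (Subtype.ext (Prod.ext h1 (Prod.ext h2 h3))) h
      · rw [if_neg h3, mul_zero]
    · rw [if_neg h2, mul_zero, zero_mul]
  · rw [if_neg h1, zero_mul, zero_mul]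

/-- `∑ Q_r Q_s Q_t` -/
def kap (t : Tri) : ℤ := ∑ x, Q t.1.1 (D.c x) * Q t.1.2.1 (D.c x) * Q t.1.2.2 (D.c x)

theorem ip_wye_self (t : Tri) : ip (D.wye t) (D.wye t) = (D.kap t : ℂ) / 256 := by
  rw [ip_apply]
  unfold wye
  rw [wye_inner]
  simp only [E_inner, if_true]
  have h : ∀ v : G, ∑ u, D.E t.1.1 u v * D.E t.1.2.1 u v * D.E t.1.2.2 u v = (D.kap t : ℂ) / 4096 := by
    intro v
    unfold kap
    rw [Int.cast_sum, Finset.sum_div]
    refine Fintype.sum_equiv (Equiv.subRight v) _ _ fun u => ?_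
    simp only [E_apply, Equiv.subRight_apply]
    push_cast
    ring
  rw [Finset.sum_comm]
  simp only [h]
  rw [Finset.sum_const, Finset.card_univ, D.card]
  simp only [nsmul_eq_mul]
  push_cast
  ring

theorem kap_ne (t : Tri) : (D.kap t : ℂ) ≠ 0 := by
  exact_mod_cast D.kappa _ _ _ t.2

theorem wye_indep : LinearIndependent ℂ D.wye := by
  rw [Fintype.linearIndependent_iff]
  intro g hg t
  have h := congrArg (ip (D.wye t)) hg
  rw [map_sum, map_zero, Finset.sum_eq_single t] at h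
  · rw [map_smul, ip_wye_self, smul_eq_mul] at h
    rcases mul_eq_zero.1 h with h | h
    · exact h
    · rw [div_eq_zero_iff] at h
      rcases h with h | h
      · exact absurd h (D.kap_ne t)
      · norm_num at h
  · intro s _ hs
    rw [map_smul, D.ip_wye_ne hs, smul_zero]
  · intro h
    exact absurd (Finset.mem_univ _) h

theorem span_eq : Submodule.span ℂ (Set.range D.wye) = Submodule.span ℂ (Set.range D.del) := by
  refine Submodule.eq_of_le_of_finrank_le (D.wye_le.trans D.wyeSpan_le) ?_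
  rw [finrank_span_eq_card D.wye_indep]
  exact finrank_range_le_card D.del

theorem exactly : D.sch.ExactlyTriplyRegular :=
  ⟨D.wyeSpan_le.trans D.le_deltaSpan, D.deltaSpan_le.trans (D.span_eq ▸ D.wye_le)⟩


/-! ### The Delta-Wye parameters -/

open Classical in
theorem sum_eq (a : Fin (9 + 1) → Fin (9 + 1) → Fin (9 + 1) → ℂ) :
    (∑ r, ∑ s, ∑ t, if 0 < (fun r s t => (p0 r s t : ℝ)) r s t then a r s t • Wye (D.E r) (D.E s) (D.E t) else 0) =
      ∑ t : Tri, a t.1.1 t.1.2.1 t.1.2.2 • D.wye t := by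
  have h1 : ∑ t : Tri, a t.1.1 t.1.2.1 t.1.2.2 • D.wye t =
      ∑ w ∈ univ.filter (fun w : Fin (9 + 1) × Fin (9 + 1) × Fin (9 + 1) => 0 < p0 w.1 w.2.1 w.2.2),
        a w.1 w.2.1 w.2.2 • Wye (D.E w.1) (D.E w.2.1) (D.E w.2.2) := by
    rw [Finset.sum_subtype (univ.filter fun w : Fin (9 + 1) × Fin (9 + 1) × Fin (9 + 1) => 0 < p0 w.1 w.2.1 w.2.2)
      (p := fun w => 0 < p0 w.1 w.2.1 w.2.2) (fun w => by simp)]
    rfl
  rw [h1, Finset.sum_filter, Fintype.sum_prod_type]
  refine Finset.sum_congr rfl fun r _ => ?_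
  rw [Fintype.sum_prod_type]
  refine Finset.sum_congr rfl fun s _ => Finset.sum_congr rfl fun t _ => ?_
  by_cases h : 0 < p0 r s t
  · rw [if_pos (show (0 : ℝ) < (p0 r s t : ℝ) from Nat.cast_pos.2 h), if_pos h]
  · rw [if_neg (show ¬ (0 : ℝ) < (p0 r s t : ℝ) from fun h' => h (Nat.cast_pos.1 h')), if_neg h]

theorem exists_sigma : ∃ σ, D.sch.IsDeltaWye D.E (fun r s t => (p0 r s t : ℝ)) σ := by
  have h : ∀ t : Tri, ∃ a : Tri → ℂ, ∑ w, a w • D.wye w = D.del t := by
    intro t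
    have h1 : D.del t ∈ Submodule.span ℂ (Set.range D.wye) := by
      rw [span_eq]
      exact Submodule.subset_span ⟨t, rfl⟩
    exact (Submodule.mem_span_range_iff_exists_fun ℂ).1 h1
  choose a ha using h
  refine ⟨fun i j k r s t => if h : 0 < p0 i j k then (if h' : 0 < p0 r s t then a ⟨(i, j, k), h⟩ ⟨(r, s, t), h'⟩
    else 0) else 0, ?_⟩
  intro i j k hijk
  have hijk' : 0 < p0 i j k := hijk
  rw [D.sum_eq (fun r s t => if h : 0 < p0 i j k then (if h' : 0 < p0 r s t then a ⟨(i, j, k), h⟩ ⟨(r, s, t), h'⟩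
    else 0) else 0)]
  have h2 := ha ⟨(i, j, k), hijk'⟩
  change D.del ⟨(i, j, k), hijk'⟩ = _
  rw [← h2]
  refine Finset.sum_congr rfl fun w _ => ?_
  rw [dif_pos hijk', dif_pos w.2]

theorem ip_del_wye (t w : Tri) : ip (D.wye w) (D.del t) =
    ((∑ a, ∑ b, ∑ v, (if D.c a = t.1.1 ∧ D.c (a - b) = t.1.2.1 ∧ D.c b = t.1.2.2 then
      Q w.1.1 (D.c (a - v)) * Q w.1.2.1 (D.c (b - v)) * Q w.1.2.2 (D.c v) else 0) : ℤ) : ℂ) / 256 := by
  rw [ip_apply]
  have h1 : ∀ z : G, ∑ x, ∑ y, D.del t x y z * D.wye w x y z =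
      ((∑ a, ∑ b, ∑ v, (if D.c a = t.1.1 ∧ D.c (a - b) = t.1.2.1 ∧ D.c b = t.1.2.2 then
      Q w.1.1 (D.c (a - v)) * Q w.1.2.1 (D.c (b - v)) * Q w.1.2.2 (D.c v) else 0) : ℤ) : ℂ) / 4096 := by
    intro z
    rw [Int.cast_sum, Finset.sum_div]
    refine Fintype.sum_equiv (Equiv.subRight z) _ _ fun x => ?_
    rw [Int.cast_sum, Finset.sum_div]
    refine Fintype.sum_equiv (Equiv.subRight z) _ _ fun y => ?_
    simp only [Equiv.subRight_apply, del_apply]
    have e : x - z - (y - z) = x - y := by abel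
    rw [e]
    by_cases hc : D.c (x - z) = t.1.1 ∧ D.c (x - y) = t.1.2.1 ∧ D.c (y - z) = t.1.2.2
    · simp only [if_pos hc]
      rw [one_mul, Int.cast_sum, Finset.sum_div]
      unfold wye Wye
      refine Fintype.sum_equiv (Equiv.subRight z) _ _ fun u => ?_
      simp only [Equiv.subRight_apply, E_apply]
      have e1 : x - z - (u - z) = x - u := by abel
      have e2 : y - z - (u - z) = y - u := by abel
      have e3 : D.c (u - z) = D.c (z - u) := by rw [← D.c_neg, neg_sub]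
      rw [e1, e2, e3]
      push_cast
      ring
    · simp only [if_neg hc]
      simp
  have h2 : ∑ x, ∑ y, ∑ z, D.del t x y z * D.wye w x y z = ∑ z, ∑ x, ∑ y, D.del t x y z * D.wye w x y z := by
    calc ∑ x, ∑ y, ∑ z, D.del t x y z * D.wye w x y z
        = ∑ x, ∑ z, ∑ y, D.del t x y z * D.wye w x y z :=
          Finset.sum_congr rfl fun x _ => Finset.sum_comm
      _ = _ := Finset.sum_comm
  rw [h2]
  simp only [h1]
  rw [Finset.sum_const, Finset.card_univ, D.card]
  simp only [nsmul_eq_mul]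
  push_cast
  ring

theorem sigma_eq {σ : Fin (9 + 1) → Fin (9 + 1) → Fin (9 + 1) → Fin (9 + 1) → Fin (9 + 1) → Fin (9 + 1) → ℂ}
    (h : D.sch.IsDeltaWye D.E (fun r s t => (p0 r s t : ℝ)) σ) (t w : Tri) :
    σ t.1.1 t.1.2.1 t.1.2.2 w.1.1 w.1.2.1 w.1.2.2 * D.kap w =
    ((∑ a, ∑ b, ∑ v, (if D.c a = t.1.1 ∧ D.c (a - b) = t.1.2.1 ∧ D.c b = t.1.2.2 then
      Q w.1.1 (D.c (a - v)) * Q w.1.2.1 (D.c (b - v)) * Q w.1.2.2 (D.c v) else 0) : ℤ) : ℂ) := by
  have h1 := h t.1.1 t.1.2.1 t.1.2.2 t.2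
  rw [D.sum_eq (fun r s u => σ t.1.1 t.1.2.1 t.1.2.2 r s u)] at h1
  have h2 := congrArg (ip (D.wye w)) h1
  have h3 := D.ip_del_wye t w
  change ip (D.wye w) (D.del t) = _ at h2
  rw [h3, map_sum, Finset.sum_eq_single w] at h2
  · rw [map_smul, ip_wye_self, smul_eq_mul] at h2
    have h4 : (256 : ℂ) ≠ 0 := by norm_num
    field_simp at h2
    rw [h2]
  · intro s _ hs
    rw [map_smul, D.ip_wye_ne hs, smul_zero]
  · intro h
    exact absurd (Finset.mem_univ _) h

end TData

/-- classes of `ℤ/4 × ℤ/4` modulo `±1` -/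
def c1 (g : ZMod 4 × ZMod 4) : Fin (9 + 1) :=
  Fin.ofNat 10 ((0x8796535297864140 >>> (4 * (4 * g.1.val + g.2.val))) &&& 15)

/-- classes of `(ℤ/2)^4` modulo `(v, t) ↦ (v, t + v)` -/
def c2 (g : ZMod 2 × ZMod 2 × ZMod 2 × ZMod 2) : Fin (9 + 1) :=
  Fin.ofNat 10 ((0x8998767655443210 >>> (4 * (8 * g.1.val + 4 * g.2.1.val + 2 * g.2.2.1.val + g.2.2.2.val))) &&& 15)

def D1 : TData (ZMod 4 × ZMod 4) where
  c := c1
  τ := fun x => -x
  τ_sub := by intro x y; abel
  τ_τ := by intro x; abel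
  c_τ := by decide +kernel
  c_zero := by decide +kernel
  c_neg := by decide +kernel
  c_surj := by decide +kernel
  count := by decide +kernel
  orbit := by decide +kernel
  hom := by decide +kernel
  orth := by decide +kernel
  card := by decide +kernel
  kappa := by decide +kernel

/-- the involution `(v, t) ↦ (v, t + v)` -/
def τ2 (x : ZMod 2 × ZMod 2 × ZMod 2 × ZMod 2) : ZMod 2 × ZMod 2 × ZMod 2 × ZMod 2 :=
  (x.1, x.2.1, x.2.2.1 + x.1, x.2.2.2 + x.2.1)

instance decEqV4 : DecidableEq (ZMod 2 × ZMod 2 × ZMod 2 × ZMod 2) := inferInstance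

theorem hom2 : ∀ x y : ZMod 2 × ZMod 2 × ZMod 2 × ZMod 2, c2 (τ2 x - y) = c2 (x - y) → τ2 x = x ∨ τ2 y = y := by
  decide +kernel

def D2 : TData (ZMod 2 × ZMod 2 × ZMod 2 × ZMod 2) where
  c := c2
  τ := τ2
  τ_sub := by decide +kernel
  τ_τ := by decide +kernel
  c_τ := by decide +kernel
  c_zero := by decide +kernel
  c_neg := by decide +kernel
  c_surj := by decide +kernel
  count := by decide +kernel
  orbit := by decide +kernel
  hom := hom2
  orth := by decide +kernel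
  card := by decide +kernel
  kappa := by decide +kernel

theorem val1 : ∑ a, ∑ b, ∑ w, (if c1 a = 4 ∧ c1 (a - b) = 6 ∧ c1 b = 8 then
    Q 8 (c1 (a - w)) * Q 4 (c1 (b - w)) * Q 6 (c1 w) else 0) = -64 := by decide +kernel

theorem val2 : ∑ a, ∑ b, ∑ w, (if c2 a = 4 ∧ c2 (a - b) = 6 ∧ c2 b = 8 then
    Q 8 (c2 (a - w)) * Q 4 (c2 (b - w)) * Q 6 (c2 w) else 0) = 64 := by decide +kernel


theorem kap1 : D1.kap ⟨(8, 4, 6), by decide +kernel⟩ = 32 := by decide +kernel

theorem kap2 : D2.kap ⟨(8, 4, 6), by decide +kernel⟩ = 32 := by decide +kernel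

/-- There are two exactly triply regular symmetric association schemes with nine classes on sixteen points, with equal
intersection numbers and orderings of the primitive idempotents matched by the linear map `A_i ↦ A_i'`, for which the
Delta-Wye parameters differ. -/
theorem result : ∃ (X X' : Type) (_ : Fintype X) (_ : Fintype X') (S : Scheme X 9) (S' : Scheme X' 9)
    (E : Fin (9 + 1) → Matrix X X ℂ) (E' : Fin (9 + 1) → Matrix X' X' ℂ)
    (c : Fin (9 + 1) → Fin (9 + 1) → ℝ) (q : Fin (9 + 1) → Fin (9 + 1) → Fin (9 + 1) → ℝ),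
    Fintype.card X = 16 ∧ Fintype.card X' = 16 ∧
    S.ExactlyTriplyRegular ∧ S'.ExactlyTriplyRegular ∧ S.p = S'.p ∧
    S.IsOrdering E ∧ S'.IsOrdering E' ∧
    (∀ r, E r = ∑ i, c r i • S.adj i) ∧ (∀ r, E' r = ∑ i, c r i • S'.adj i) ∧
    IsKrein E q ∧ IsKrein E' q ∧
    (∃ σ, S.IsDeltaWye E q σ) ∧ (∃ σ', S'.IsDeltaWye E' q σ') ∧
    ∀ σ σ', S.IsDeltaWye E q σ → S'.IsDeltaWye E' q σ' →
      ∃ i j k r s t, 0 < S.p i j k ∧ 0 < q r s t ∧ σ i j k r s t ≠ σ' i j k r s t := by
  refine ⟨ZMod 4 × ZMod 4, ZMod 2 × ZMod 2 × ZMod 2 × ZMod 2, inferInstance, inferInstance, D1.sch, D2.sch,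
    D1.E, D2.E, fun r i => ((Q r i : ℤ) : ℝ) / 16, fun r s t => (p0 r s t : ℝ), D1.card, D2.card,
    D1.exactly, D2.exactly, rfl, D1.ordering, D2.ordering, D1.E_eq, D2.E_eq, D1.krein, D2.krein,
    D1.exists_sigma, D2.exists_sigma, ?_⟩
  intro σ σ' h h'
  have hp : 0 < p0 8 4 6 := by decide +kernel
  refine ⟨4, 6, 8, 8, 4, 6, by decide +kernel, (show (0 : ℝ) < (p0 8 4 6 : ℝ) from Nat.cast_pos.2 hp), ?_⟩
  intro heq
  have h1 := D1.sigma_eq h ⟨(4, 6, 8), by decide +kernel⟩ ⟨(8, 4, 6), by decide +kernel⟩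
  have h2 := D2.sigma_eq h' ⟨(4, 6, 8), by decide +kernel⟩ ⟨(8, 4, 6), by decide +kernel⟩
  rw [kap1] at h1
  rw [kap2] at h2
  have v1 : ((∑ a, ∑ b, ∑ w, (if D1.c a = 4 ∧ D1.c (a - b) = 6 ∧ D1.c b = 8 then
    Q 8 (D1.c (a - w)) * Q 4 (D1.c (b - w)) * Q 6 (D1.c w) else 0) : ℤ) : ℂ) = ((-64 : ℤ) : ℂ) :=
    congrArg _ val1
  have v2 : ((∑ a, ∑ b, ∑ w, (if D2.c a = 4 ∧ D2.c (a - b) = 6 ∧ D2.c b = 8 then
    Q 8 (D2.c (a - w)) * Q 4 (D2.c (b - w)) * Q 6 (D2.c w) else 0) : ℤ) : ℂ) = ((64 : ℤ) : ℂ) :=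
    congrArg _ val2
  have h3 : σ 4 6 8 8 4 6 * 32 = -64 := by
    have := h1.trans v1
    push_cast at this
    exact this
  have h4 : σ' 4 6 8 8 4 6 * 32 = 64 := by
    have := h2.trans v2
    push_cast at this
    exact this
  rw [heq, h4] at h3
  norm_num at h3

end Pool.Agent.Results.MP_711634_co.DeltaWye
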